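import Pool.Agent.Helper75.PZ.Stmts

set_option autoImplicit false

universe u

namespace Pool.Agent.Helper51.PZ

open Pool.Agent.Helper75.PZ

/-- commutative leading symbols -/
structure ABV {F K M : Type*} [Field F] [Field K] [Field M] [Algebra F K] [Algebra F M]
    (G : K → G2) (C : K → M) : Prop where
  c0 : ∀ x, x ≠ 0 → C x ≠ 0
  gm : ∀ x y, x ≠ 0 → y ≠ 0 → G (x * y) = G x + G y
  cm : ∀ x y, x ≠ 0 → y ≠ 0 → C (x * y) = C x * C y
  al : ∀ x y, x ≠ 0 → y ≠ 0 → G x < G y → x + y ≠ 0 ∧ G (x + y) = G x ∧ C (x + y) = C x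
  ae : ∀ x y, x ≠ 0 → y ≠ 0 → G x = G y → C x + C y ≠ 0 →
    x + y ≠ 0 ∧ G (x + y) = G x ∧ C (x + y) = C x + C y
  az : ∀ x y, x ≠ 0 → y ≠ 0 → G x = G y → C x + C y = 0 → x + y = 0 ∨ G x < G (x + y)
  fs : ∀ r : F, r ≠ 0 → G (algebraMap F K r) = 0 ∧ C (algebraMap F K r) = algebraMap F M r

theorem ab_fix {F M : Type*} [Field F] [Field M] [Algebra F M] (σ : M ≃ₐ[F] M) (m : M)
    (h : σ m = m) (k : ℤ) : (σ ^ k) m = m := by
  have h1 : σ ∈ MulAction.stabilizer (M ≃ₐ[F] M) m := by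
    rw [MulAction.mem_stabilizer_iff, AlgEquiv.smul_def]
    exact h
  have h2 := (MulAction.stabilizer (M ≃ₐ[F] M) m).zpow_mem h1 k
  rwa [MulAction.mem_stabilizer_iff, AlgEquiv.smul_def] at h2

theorem ab_res {F K A M : Type*} [Field F] [Field K] [Field M] [Ring A] [Nontrivial A]
    [Algebra F K] [Algebra K A] [Algebra F M] {σ : M ≃ₐ[F] M} {g : A → G2} {c : A → M}
    (h : SYM (K := K) σ g c) :
    ABV (F := F) (fun x : K => g (algebraMap K A x)) (fun x : K => c (algebraMap K A x)) := by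
  have inj : ∀ x : K, x ≠ 0 → algebraMap K A x ≠ 0 := by
    intro x hx h0
    exact hx ((algebraMap K A).injective (by rw [h0, map_zero]))
  refine ⟨fun x hx => h.c0 _ (inj x hx), ?_, ?_, ?_, ?_, ?_, fun r hr => h.fs r hr⟩
  · intro x y hx hy
    show g (algebraMap K A (x * y)) = _
    rw [map_mul]
    exact h.gmul _ _ (inj x hx) (inj y hy)
  · intro x y hx hy
    show c (algebraMap K A (x * y)) = _
    rw [map_mul, h.cmul _ _ (inj x hx) (inj y hy)]
    obtain ⟨h6, -, -⟩ := h.ks x hx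
    obtain ⟨-, -, hf⟩ := h.ks y hy
    rw [ab_fix σ _ hf]
    have he : Even (n1 (g (algebraMap K A x)) * n2 (g (algebraMap K A y))) := by
      obtain ⟨t, ht⟩ := h6
      rw [ht]
      exact ⟨3 * t * n2 (g (algebraMap K A y)), by ring⟩
    rw [he.neg_one_zpow, mul_one]
  · intro x y hx hy hl
    obtain ⟨a1, a2, a3⟩ := h.addlt _ _ (inj x hx) (inj y hy) hl
    rw [← map_add] at a1 a2 a3
    exact ⟨fun h0 => a1 (by rw [h0, map_zero]), a2, a3⟩
  · intro x y hx hy hl hc
    obtain ⟨a1, a2, a3⟩ := h.addeq _ _ (inj x hx) (inj y hy) hl hc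
    rw [← map_add] at a1 a2 a3
    exact ⟨fun h0 => a1 (by rw [h0, map_zero]), a2, a3⟩
  · intro x y hx hy hl hc
    rcases h.addz _ _ (inj x hx) (inj y hy) hl hc with a | a
    · left
      rw [← map_add] at a
      by_contra hne
      exact inj _ hne a
    · right
      rw [← map_add] at a
      exact a

section
variable {F K M : Type*} [Field F] [Field K] [Field M] [Algebra F K] [Algebra F M]
  {G : K → G2} {C : K → M}

theorem ab_g1 (h : ABV (F := F) G C) : G 1 = 0 := by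
  have := h.gm 1 1 one_ne_zero one_ne_zero
  rw [mul_one] at this
  exact left_eq_add.mp this

theorem ab_c1 (h : ABV (F := F) G C) : C 1 = 1 := by
  have := h.cm 1 1 one_ne_zero one_ne_zero
  rw [mul_one] at this
  exact (mul_eq_left₀ (h.c0 1 one_ne_zero)).mp this.symm

theorem ab_pow (h : ABV (F := F) G C) {x : K} (hx : x ≠ 0) (k : ℕ) :
    G (x ^ k) = k • G x ∧ C (x ^ k) = C x ^ k := by
  induction k with
  | zero => rw [pow_zero, zero_smul, pow_zero]; exact ⟨ab_g1 h, ab_c1 h⟩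
  | succ k ih =>
    rw [pow_succ, h.gm _ _ (pow_ne_zero k hx) hx, h.cm _ _ (pow_ne_zero k hx) hx, ih.1, ih.2,
      succ_nsmul, pow_succ]
    exact ⟨rfl, rfl⟩

/-- residue relation -/
def ABR (G : K → G2) (C : K → M) (y : K) (m : M) : Prop :=
  (m ≠ 0 ∧ y ≠ 0 ∧ G y = 0 ∧ C y = m) ∨ (m = 0 ∧ (y = 0 ∨ (y ≠ 0 ∧ 0 < G y)))

theorem ab_add (h : ABV (F := F) G C) {y y' : K} {m m' : M} (h1 : ABR G C y m)
    (h2 : ABR G C y' m') : ABR G C (y + y') (m + m') := by
  rcases h1 with ⟨m0, y0, g0, c0⟩ | ⟨m0, hy⟩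
  · rcases h2 with ⟨m0', y0', g0', c0'⟩ | ⟨m0', hy'⟩
    · by_cases hm : m + m' = 0
      · right
        refine ⟨hm, ?_⟩
        by_cases hy : y + y' = 0
        · exact Or.inl hy
        · rcases h.az y y' y0 y0' (by rw [g0, g0']) (by rw [c0, c0', hm]) with a | a
          · exact Or.inl a
          · exact Or.inr ⟨hy, by rw [g0] at a; exact a⟩
      · left
        obtain ⟨a1, a2, a3⟩ := h.ae y y' y0 y0' (by rw [g0, g0']) (by rw [c0, c0']; exact hm)
        exact ⟨hm, a1, by rw [a2, g0], by rw [a3, c0, c0']⟩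
    · subst m0'
      rw [add_zero]
      rcases hy' with hy' | ⟨hy', hg⟩
      · subst hy'
        rw [add_zero]
        exact Or.inl ⟨m0, y0, g0, c0⟩
      · obtain ⟨a1, a2, a3⟩ := h.al y y' y0 hy' (by rw [g0]; exact hg)
        exact Or.inl ⟨m0, a1, by rw [a2, g0], by rw [a3, c0]⟩
  · subst m0
    rw [zero_add]
    rcases hy with hy | ⟨hy, hg⟩
    · subst hy
      rw [zero_add]
      exact h2
    · rcases h2 with ⟨m0', y0', g0', c0'⟩ | ⟨m0', hy'⟩
      · obtain ⟨a1, a2, a3⟩ := h.al y' y y0' hy (by rw [g0']; exact hg)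
        rw [add_comm]
        exact Or.inl ⟨m0', a1, by rw [a2, g0'], by rw [a3, c0']⟩
      · right
        refine ⟨m0', ?_⟩
        rcases hy' with hy' | ⟨hy', hg'⟩
        · subst hy'
          rw [add_zero]
          exact Or.inr ⟨hy, hg⟩
        · rcases lt_trichotomy (G y) (G y') with hl | hl | hl
          · obtain ⟨a1, a2, -⟩ := h.al y y' hy hy' hl
            exact Or.inr ⟨a1, by rw [a2]; exact hg⟩
          · by_cases hc : C y + C y' = 0
            · by_cases hs : y + y' = 0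
              · exact Or.inl hs
              · rcases h.az y y' hy hy' hl hc with a | a
                · exact Or.inl a
                · exact Or.inr ⟨hs, hg.trans a⟩
            · obtain ⟨a1, a2, -⟩ := h.ae y y' hy hy' hl hc
              exact Or.inr ⟨a1, by rw [a2]; exact hg⟩
          · obtain ⟨a1, a2, -⟩ := h.al y' y hy' hy hl
            rw [add_comm] at a1 a2
            exact Or.inr ⟨a1, by rw [a2]; exact hg'⟩

theorem ab_poly (h : ABV (F := F) G C) {x : K} (hx : x ≠ 0) (hg : G x = 0)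
    (Q : Polynomial F) : ABR G C (Polynomial.aeval x Q) (Polynomial.aeval (C x) Q) := by
  induction Q using Polynomial.induction_on' with
  | add p q hp hq => rw [map_add, map_add]; exact ab_add h hp hq
  | monomial k a =>
    rw [Polynomial.aeval_monomial, Polynomial.aeval_monomial]
    by_cases ha : a = 0
    · subst ha
      rw [map_zero, map_zero, zero_mul, zero_mul]
      exact Or.inr ⟨rfl, Or.inl rfl⟩
    · have ha' : algebraMap F K a ≠ 0 := by
        intro h0
        exact ha ((algebraMap F K).injective (by rw [h0, map_zero]))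
      have ha'' : algebraMap F M a ≠ 0 := by
        intro h0
        exact ha ((algebraMap F M).injective (by rw [h0, map_zero]))
      obtain ⟨p1, p2⟩ := ab_pow h hx k
      obtain ⟨f1, f2⟩ := h.fs a ha
      refine Or.inl ⟨mul_ne_zero ha'' (pow_ne_zero _ (h.c0 x hx)),
        mul_ne_zero ha' (pow_ne_zero _ hx), ?_, ?_⟩
      · rw [h.gm _ _ ha' (pow_ne_zero _ hx), f1, p1, hg, nsmul_zero, add_zero]
      · rw [h.cm _ _ ha' (pow_ne_zero _ hx), f2, p2]

theorem ab_sum (h : ABV (F := F) G C) {ι : Type*} [DecidableEq ι] (S : Finset ι) (T : ι → K)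
    (hT : ∀ p ∈ S, T p ≠ 0) (hi : ∀ p ∈ S, ∀ q ∈ S, G (T p) = G (T q) → p = q)
    (hS : S.Nonempty) : ∑ p ∈ S, T p ≠ 0 ∧ ∃ p ∈ S, G (∑ p ∈ S, T p) = G (T p) := by
  induction S using Finset.induction_on with
  | empty => exact absurd hS (by simp)
  | insert a S ha ih =>
    rcases S.eq_empty_or_nonempty with hE | hN
    · subst hE
      simp only [insert_empty_eq, Finset.sum_singleton, Finset.mem_singleton, exists_eq_left]
      exact ⟨hT a (by simp), trivial⟩
    · obtain ⟨s0, p, hp, hg⟩ := ih (fun p hp => hT p (Finset.mem_insert_of_mem hp))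
        (fun p hp q hq => hi p (Finset.mem_insert_of_mem hp) q (Finset.mem_insert_of_mem hq)) hN
      have hTa := hT a (Finset.mem_insert_self _ _)
      have hne : G (T a) ≠ G (∑ p ∈ S, T p) := by
        intro he
        rw [hg] at he
        have := hi a (Finset.mem_insert_self _ _) p (Finset.mem_insert_of_mem hp) he
        exact ha (this ▸ hp)
      rw [Finset.sum_insert ha]
      rcases lt_or_gt_of_ne hne with hl | hl
      · obtain ⟨a1, a2, -⟩ := h.al _ _ hTa s0 hl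
        exact ⟨a1, a, Finset.mem_insert_self _ _, a2⟩
      · obtain ⟨a1, a2, -⟩ := h.al _ _ s0 hTa hl
        rw [add_comm] at a1 a2
        exact ⟨a1, p, Finset.mem_insert_of_mem hp, by rw [a2, hg]⟩

theorem ab_main (h : ABV (F := F) G C) {x₁ x₂ x₃ : K} (e1 : x₁ ≠ 0) (e2 : x₂ ≠ 0)
    (e3 : x₃ ≠ 0) (hd : n1 (G x₁) * n2 (G x₂) - n1 (G x₂) * n2 (G x₁) ≠ 0)
    (hg : G x₃ = 0) (ht : Transcendental F (C x₃)) :
    AlgebraicIndependent F ![x₁, x₂, x₃] := by
  classical
  rw [algebraicIndependent_iff]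
  intro P hP
  by_contra hP0
  have hne : P.support.Nonempty := by
    rwa [Finset.nonempty_iff_ne_empty, ne_eq, MvPolynomial.support_eq_empty]
  let κ : (Fin 3 →₀ ℕ) → ℕ × ℕ := fun d => (d 0, d 1)
  let Q : ℕ × ℕ → Polynomial F := fun p =>
    ∑ d ∈ P.support.filter (fun d => κ d = p), Polynomial.monomial (d 2) (P.coeff d)
  let S : Finset (ℕ × ℕ) := P.support.image κ
  have hQ : ∀ p ∈ S, Q p ≠ 0 := by
    intro p hp hq
    obtain ⟨d0, hd0, hk⟩ := Finset.mem_image.mp hp
    have hc := congrArg (fun R => Polynomial.coeff R (d0 2)) hq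
    simp only [Q, Polynomial.finsetSum_coeff, Polynomial.coeff_monomial,
      Polynomial.coeff_zero] at hc
    rw [Finset.sum_eq_single d0] at hc
    · rw [if_pos rfl] at hc
      exact (MvPolynomial.mem_support_iff.mp hd0) hc
    · intro d hd hdne
      rw [if_neg]
      intro h2
      apply hdne
      have h01 : κ d = κ d0 := by rw [(Finset.mem_filter.mp hd).2, hk]
      have h0 : d 0 = d0 0 := congrArg Prod.fst h01
      have h1 : d 1 = d0 1 := congrArg Prod.snd h01
      ext i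
      fin_cases i
      · exact h0
      · exact h1
      · exact h2
    · intro hn
      exact absurd (Finset.mem_filter.mpr ⟨hd0, hk⟩) hn
  let T : ℕ × ℕ → K := fun p => Polynomial.aeval x₃ (Q p) * (x₁ ^ p.1 * x₂ ^ p.2)
  have hq : ∀ p ∈ S, Polynomial.aeval x₃ (Q p) ≠ 0 ∧ G (Polynomial.aeval x₃ (Q p)) = 0 := by
    intro p hp
    rcases ab_poly h e3 hg (Q p) with ⟨-, a, b, -⟩ | ⟨a, -⟩
    · exact ⟨a, b⟩
    · exact absurd a (fun h0 => ht ⟨Q p, hQ p hp, h0⟩)
  have hx : ∀ p : ℕ × ℕ, x₁ ^ p.1 * x₂ ^ p.2 ≠ 0 := fun p =>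
    mul_ne_zero (pow_ne_zero _ e1) (pow_ne_zero _ e2)
  have hT : ∀ p ∈ S, T p ≠ 0 := fun p hp => mul_ne_zero (hq p hp).1 (hx p)
  have hGT : ∀ p ∈ S, G (T p) = p.1 • G x₁ + p.2 • G x₂ := by
    intro p hp
    show G (Polynomial.aeval x₃ (Q p) * (x₁ ^ p.1 * x₂ ^ p.2)) = _
    rw [h.gm _ _ (hq p hp).1 (hx p), (hq p hp).2, zero_add,
      h.gm _ _ (pow_ne_zero _ e1) (pow_ne_zero _ e2), (ab_pow h e1 p.1).1, (ab_pow h e2 p.2).1]
  have hi : ∀ p ∈ S, ∀ q ∈ S, G (T p) = G (T q) → p = q := by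
    intro p hp q hq he
    rw [hGT p hp, hGT q hq] at he
    have f1 : (p.1 : ℤ) * n1 (G x₁) + p.2 * n1 (G x₂) = q.1 * n1 (G x₁) + q.2 * n1 (G x₂) := by
      have := congrArg (fun z : G2 => (ofLex z).1) he
      simpa [n1] using this
    have f2 : (p.1 : ℤ) * n2 (G x₁) + p.2 * n2 (G x₂) = q.1 * n2 (G x₁) + q.2 * n2 (G x₂) := by
      have := congrArg (fun z : G2 => (ofLex z).2) he
      simpa [n2] using this
    have k1 : ((p.1 : ℤ) - q.1) * (n1 (G x₁) * n2 (G x₂) - n1 (G x₂) * n2 (G x₁)) = 0 := by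
      linear_combination n2 (G x₂) * f1 - n1 (G x₂) * f2
    have k2 : ((p.2 : ℤ) - q.2) * (n1 (G x₁) * n2 (G x₂) - n1 (G x₂) * n2 (G x₁)) = 0 := by
      linear_combination n1 (G x₁) * f2 - n2 (G x₁) * f1
    have l1 := (mul_eq_zero.mp k1).resolve_right hd
    have l2 := (mul_eq_zero.mp k2).resolve_right hd
    ext
    · omega
    · omega
  have hs := (ab_sum h S T hT hi (hne.image κ)).1
  apply hs
  rw [← hP]
  have e4 : ∀ p ∈ S, T p = ∑ d ∈ P.support.filter (fun d => κ d = p),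
      algebraMap F K (P.coeff d) * ∏ i, (![x₁, x₂, x₃] : Fin 3 → K) i ^ d i := by
    intro p hp
    show Polynomial.aeval x₃ (Q p) * (x₁ ^ p.1 * x₂ ^ p.2) = _
    simp only [Q, map_sum, Polynomial.aeval_monomial, Finset.sum_mul]
    refine Finset.sum_congr rfl fun d hd => ?_
    have hk := (Finset.mem_filter.mp hd).2
    rw [← hk, Fin.prod_univ_three]
    show algebraMap F K (P.coeff d) * x₃ ^ d 2 * (x₁ ^ d 0 * x₂ ^ d 1) =
      algebraMap F K (P.coeff d) * (x₁ ^ d 0 * x₂ ^ d 1 * x₃ ^ d 2)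
    ring
  rw [Finset.sum_congr rfl e4, MvPolynomial.aeval_def, MvPolynomial.eval₂_eq',
    Finset.sum_fiberwise_of_maps_to (fun d hd => Finset.mem_image_of_mem κ hd)]

end

theorem st_AB : ST_AB.{u} := by
  intro F K A M _ _ _ _ _ _ _ _ σ g c _ h x₁ x₂ x₃ e1 e2 e3 hd hg ht
  exact ab_main (ab_res h) e1 e2 e3 hd hg ht

end Pool.Agent.Helper51.PZ
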